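import Mathlib
import Pool.Agent.Helper175.NS.Top

set_option autoImplicit false

namespace Pool.Agent.H401Z.PB

open Finset Pool.Agent.Helper175.NS

/-- the vertex set with a given bit mask -/
def dc (m : ℕ) : Finset (Fin 32) := univ.filter (fun i => m.testBit i.val = true)

theorem mem_dc {m : ℕ} {i : Fin 32} : i ∈ dc m ↔ m.testBit i.val = true := by
  simp [dc]

def dcL (l : List ℕ) : Finset (Finset (Fin 32)) := (l.map dc).toFinset

theorem mem_dcL {l : List ℕ} {A : Finset (Fin 32)} : A ∈ dcL l ↔ ∃ m ∈ l, dc m = A := by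
  rw [dcL, List.mem_toFinset, List.mem_map]

theorem sub_of_land {a b : ℕ} (h : b &&& a = a) : dc a ⊆ dc b := by
  intro n hn
  rw [mem_dc] at hn ⊢
  have h1 := congrArg (fun k => Nat.testBit k n.val) h
  simp only [Nat.testBit_land, hn, Bool.and_true] at h1
  exact h1

theorem land_of_sub {a b : ℕ} (ha : a < 2 ^ 32) (h : dc a ⊆ dc b) : b &&& a = a := by
  apply Nat.eq_of_testBit_eq
  intro i
  rw [Nat.testBit_land]
  rcases Nat.lt_or_ge i 32 with hi | hi
  · cases h1 : a.testBit i with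
    | false => simp
    | true =>
      have h2 := h (mem_dc (i := ⟨i, hi⟩).2 h1)
      rw [mem_dc] at h2
      simp only at h2
      simp [h2]
  · have h1 : a.testBit i = false := by
      apply Nat.testBit_eq_false_of_lt
      exact lt_of_lt_of_le ha (Nat.pow_le_pow_right (by norm_num) hi)
    simp [h1]

theorem dc_inj {a b : ℕ} (ha : a < 2 ^ 32) (hb : b < 2 ^ 32) (h : dc a = dc b) : a = b := by
  have h1 := land_of_sub ha h.subset
  have h2 := land_of_sub hb h.symm.subset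
  rw [← h1, Nat.land_comm, h2]

theorem dc_lor (a b : ℕ) : dc (a ||| b) = dc a ∪ dc b := by
  ext n
  simp [mem_dc, Nat.testBit_lor]

theorem dc_two_pow (x : Fin 32) : dc (2 ^ x.val) = {x} := by
  ext n
  rw [mem_dc, Nat.testBit_two_pow, mem_singleton]
  simp only [decide_eq_true_eq]
  exact ⟨fun h => Fin.ext h.symm, fun h => by rw [h]⟩

theorem top_not_mem {m : ℕ} (h : m < 2 ^ 31) : (31 : Fin 32) ∉ dc m := by
  rw [mem_dc]
  have : m.testBit 31 = false := Nat.testBit_eq_false_of_lt h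
  simp [show ((31 : Fin 32) : ℕ) = 31 from rfl, this]

theorem dc_nonempty {m : ℕ} (h : m < 2 ^ 32) (h0 : m ≠ 0) : (dc m).Nonempty := by
  rw [nonempty_iff_ne_empty]
  intro he
  apply h0
  apply dc_inj h (by norm_num)
  rw [he]
  ext n
  simp [mem_dc]

def bitsL (m : ℕ) : List ℕ := (List.range 32).filter (fun i => m.testBit i)

theorem mem_bitsL {m n : ℕ} : n ∈ bitsL m ↔ n < 32 ∧ m.testBit n = true := by
  rw [bitsL, List.mem_filter, List.mem_range]

def starB (l : List ℕ) (ρ : ℕ) : List ℕ :=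
  l.flatMap (fun m => if m &&& ρ = ρ then (bitsL ρ).map (fun z => (m ^^^ 2 ^ z) ||| 2 ^ 31) else [m])

theorem dc_swap {m : ℕ} {z : Fin 32} (hz : z ∈ dc m) :
    dc ((m ^^^ 2 ^ z.val) ||| 2 ^ 31) = insert 31 ((dc m).erase z) := by
  rw [mem_dc] at hz
  rw [dc_lor, show (2 : ℕ) ^ 31 = 2 ^ ((31 : Fin 32) : ℕ) from rfl, dc_two_pow]
  ext n
  rw [mem_union, mem_singleton, mem_insert, mem_erase, mem_dc, mem_dc, Nat.testBit_xor,
    Nat.testBit_two_pow]
  by_cases h2 : n = z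
  · subst h2
    simp [hz]
  · have h3 : ¬ (z.val = n.val) := fun h => h2 (Fin.ext h.symm)
    simp [h2, h3, or_comm]

theorem mem_star' {V : Type} [DecidableEq V] {L : Finset (Finset V)} {ρ : Finset V} {v : V}
    {G : Finset V} : G ∈ star L ρ v ↔
    (G ∈ L ∧ ¬ ρ ⊆ G) ∨ ∃ F ∈ L, ρ ⊆ F ∧ ∃ z ∈ ρ, G = insert v (F.erase z) := by
  refine ⟨star_cases, ?_⟩
  unfold Pool.Agent.Helper175.NS.star
  rw [Finset.mem_union, Finset.mem_filter, Finset.mem_biUnion]
  rintro (h | ⟨F, hF, h1, z, hz, rfl⟩)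
  · exact Or.inl h
  · exact Or.inr ⟨F, mem_filter.2 ⟨hF, h1⟩, mem_image_of_mem _ hz⟩

theorem dcL_starB (l : List ℕ) (ρ : ℕ) (hρ : ρ < 2 ^ 32) :
    dcL (starB l ρ) = star (dcL l) (dc ρ) 31 := by
  ext A
  rw [mem_dcL, mem_star']
  constructor
  · rintro ⟨m', hm', rfl⟩
    rw [starB, List.mem_flatMap] at hm'
    obtain ⟨m, hm, h1⟩ := hm'
    split_ifs at h1 with h2
    · rw [List.mem_map] at h1
      obtain ⟨z, hz, rfl⟩ := h1
      rw [mem_bitsL] at hz
      have h3 := sub_of_land h2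
      have hz' : (⟨z, hz.1⟩ : Fin 32) ∈ dc ρ := mem_dc.2 hz.2
      right
      exact ⟨dc m, mem_dcL.2 ⟨m, hm, rfl⟩, h3, ⟨z, hz.1⟩, hz', dc_swap (h3 hz')⟩
    · rw [List.mem_singleton] at h1
      subst h1
      left
      exact ⟨mem_dcL.2 ⟨m', hm, rfl⟩, fun h => h2 (land_of_sub hρ h)⟩
  · rintro (⟨h1, h2⟩ | ⟨F, h1, h2, z, hz, rfl⟩)
    · obtain ⟨m, hm, rfl⟩ := mem_dcL.1 h1
      refine ⟨m, ?_, rfl⟩
      rw [starB, List.mem_flatMap]
      refine ⟨m, hm, ?_⟩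
      rw [if_neg (fun h => h2 (sub_of_land h))]
      exact List.mem_singleton_self _
    · obtain ⟨m, hm, rfl⟩ := mem_dcL.1 h1
      refine ⟨(m ^^^ 2 ^ z.val) ||| 2 ^ 31, ?_, dc_swap (h2 hz)⟩
      rw [starB, List.mem_flatMap]
      refine ⟨m, hm, ?_⟩
      rw [if_pos (land_of_sub hρ h2), List.mem_map]
      exact ⟨z.val, mem_bitsL.2 ⟨z.isLt, mem_dc.1 hz⟩, rfl⟩

def sameB (l l' : List ℕ) : Bool :=
  l.all (fun m => l'.contains m) && l'.all (fun m => l.contains m)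

theorem dcL_of_sameB {l l' : List ℕ} (h : sameB l l' = true) : dcL l = dcL l' := by
  rw [sameB, Bool.and_eq_true, List.all_eq_true, List.all_eq_true] at h
  ext A
  rw [mem_dcL, mem_dcL]
  constructor
  · rintro ⟨m, hm, rfl⟩
    exact ⟨m, by simpa using h.1 m hm, rfl⟩
  · rintro ⟨m, hm, rfl⟩
    exact ⟨m, by simpa using h.2 m hm, rfl⟩

def applyB (l : List ℕ) (a b : ℕ) : List ℕ :=
  (l.flatMap (fun m => if m &&& a = a then (bitsL a).map (fun z => (m ||| b) ^^^ 2 ^ z)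
    else [m])).eraseDups

def okStep (l l' : List ℕ) (a b : ℕ) : Bool :=
  sameB (starB l a) (starB l' b) && l.all (fun m => decide (m < 2 ^ 31)) &&
    l'.all (fun m => decide (m < 2 ^ 31)) &&
    decide (a < 2 ^ 31) && decide (b < 2 ^ 31) && decide (a ≠ 0) && decide (b ≠ 0)

def chainB : List ℕ → List (ℕ × ℕ) → List ℕ → Bool
  | l, [], t => sameB l t
  | l, r :: ms, t => okStep l (applyB l r.1 r.2) r.1 r.2 && chainB (applyB l r.1 r.2) ms t

theorem star_step (l : List ℕ) (a : ℕ) (hl : ∀ m ∈ l, m < 2 ^ 31) (ha : a < 2 ^ 31) (h0 : a ≠ 0) :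
    Nonempty (Sp (dcL (starB l a)) ≃ₜ Sp (dcL l)) := by
  have ha' : a < 2 ^ 32 := lt_trans ha (by norm_num)
  rw [dcL_starB l a ha']
  refine star_homeo _ _ _ (dc_nonempty ha' h0) ?_ (top_not_mem ha)
  intro F hF
  obtain ⟨m, hm, rfl⟩ := mem_dcL.1 hF
  exact top_not_mem (hl m hm)

theorem chain_homeo (ms : List (ℕ × ℕ)) :
    ∀ (l t : List ℕ), chainB l ms t = true → Nonempty (Sp (dcL l) ≃ₜ Sp (dcL t)) := by
  induction ms with
  | nil =>
    intro l t h
    rw [chainB] at h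
    rw [dcL_of_sameB h]
    exact ⟨Homeomorph.refl _⟩
  | cons r ms ih =>
    intro l t h
    rw [chainB, Bool.and_eq_true] at h
    obtain ⟨h1, h2⟩ := h
    simp only [okStep, Bool.and_eq_true, decide_eq_true_eq, List.all_eq_true] at h1
    obtain ⟨⟨⟨⟨⟨⟨h3, h4⟩, h5⟩, h6⟩, h7⟩, h8⟩, h9⟩ := h1
    obtain ⟨e1⟩ := ih _ t h2
    obtain ⟨e2⟩ := star_step l r.1 h4 h6 h8
    obtain ⟨e3⟩ := star_step _ r.2 h5 h7 h9
    rw [dcL_of_sameB h3] at e2
    exact ⟨(e2.symm.trans e3).trans e1⟩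

end Pool.Agent.H401Z.PB
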