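import Mathlib
import Pool.Agent.H401Z.PB.Mask

set_option autoImplicit false

namespace Pool.Agent.H401Z.PB

open Finset

/-- A case analysis refuting partitionability. -/
inductive Cert : Type
  | split (m x : ℕ) (t f : Cert) : Cert
  | two (g : ℕ) : Cert
  | nil (g : ℕ) : Cert

def upT (m x : ℕ) (s : List (ℕ × ℕ × ℕ)) : List (ℕ × ℕ × ℕ) :=
  s.map (fun e => if e.1 = m then (e.1, e.2.1 ||| 2 ^ x, e.2.2) else e)

def upF (m x : ℕ) (s : List (ℕ × ℕ × ℕ)) : List (ℕ × ℕ × ℕ) :=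
  s.map (fun e => if e.1 = m then (e.1, e.2.1, e.2.2 ||| 2 ^ x) else e)

def cov (g : ℕ) (e : ℕ × ℕ × ℕ) : Bool :=
  decide (e.1 &&& g = g) && decide ((g ||| e.2.2) &&& e.1 = e.1)

def check : Cert → List (ℕ × ℕ × ℕ) → Bool
  | .split m x t f, s => decide (x < 32) && check t (upT m x s) && check f (upF m x s)
  | .two g, s => s.any (fun e1 => cov g e1 && s.any (fun e2 => cov g e2 && decide (e1.1 ≠ e2.1)))
  | .nil g, s => decide (g < 2 ^ 32) && s.any (fun e => decide (e.1 &&& g = g)) &&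
      s.all (fun e => decide (e.1 &&& g ≠ g) ||
        (decide (g &&& e.2.1 ≠ e.2.1) && decide (e.2.1 < 2 ^ 32)))

/-- `R` is a partitioning of the complex generated by `L`. -/
def IsPart (L : Finset (Finset (Fin 32))) (R : Finset (Fin 32) → Finset (Fin 32)) : Prop :=
  (∀ F ∈ L, R F ⊆ F) ∧
    ∀ G : Finset (Fin 32), (∃ F ∈ L, G ⊆ F) → ∃! F, F ∈ L ∧ R F ⊆ G ∧ G ⊆ F

def Inv (l : List ℕ) (R : Finset (Fin 32) → Finset (Fin 32)) (s : List (ℕ × ℕ × ℕ)) : Prop :=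
  (∀ e ∈ s, e.1 ∈ l ∧ dc e.2.1 ⊆ R (dc e.1) ∧ Disjoint (dc e.2.2) (R (dc e.1))) ∧
    ∀ m ∈ l, ∃ e ∈ s, e.1 = m

theorem inv_upT {l : List ℕ} {R : Finset (Fin 32) → Finset (Fin 32)} {s : List (ℕ × ℕ × ℕ)}
    (h : Inv l R s) (m : ℕ) (x : Fin 32) (hx : x ∈ R (dc m)) : Inv l R (upT m x.val s) := by
  constructor
  · intro e he
    rw [upT, List.mem_map] at he
    obtain ⟨e', he', rfl⟩ := he
    obtain ⟨h1, h2, h3⟩ := h.1 e' he'
    split_ifs with hm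
    · refine ⟨h1, ?_, h3⟩
      simp only
      rw [dc_lor, dc_two_pow]
      exact union_subset h2 (singleton_subset_iff.2 (hm ▸ hx))
    · exact ⟨h1, h2, h3⟩
  · intro m' hm'
    obtain ⟨e, he, rfl⟩ := h.2 m' hm'
    refine ⟨_, List.mem_map.2 ⟨e, he, rfl⟩, ?_⟩
    split_ifs <;> rfl

theorem inv_upF {l : List ℕ} {R : Finset (Fin 32) → Finset (Fin 32)} {s : List (ℕ × ℕ × ℕ)}
    (h : Inv l R s) (m : ℕ) (x : Fin 32) (hx : x ∉ R (dc m)) : Inv l R (upF m x.val s) := by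
  constructor
  · intro e he
    rw [upF, List.mem_map] at he
    obtain ⟨e', he', rfl⟩ := he
    obtain ⟨h1, h2, h3⟩ := h.1 e' he'
    split_ifs with hm
    · refine ⟨h1, h2, ?_⟩
      simp only
      rw [dc_lor, dc_two_pow, disjoint_union_left]
      exact ⟨h3, disjoint_singleton_left.2 (hm ▸ hx)⟩
    · exact ⟨h1, h2, h3⟩
  · intro m' hm'
    obtain ⟨e, he, rfl⟩ := h.2 m' hm'
    refine ⟨_, List.mem_map.2 ⟨e, he, rfl⟩, ?_⟩
    split_ifs <;> rfl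

theorem cov_spec {l : List ℕ} {R : Finset (Fin 32) → Finset (Fin 32)} {s : List (ℕ × ℕ × ℕ)}
    (hR : IsPart (dcL l) R) (h : Inv l R s) {g : ℕ} {e : ℕ × ℕ × ℕ} (he : e ∈ s)
    (hc : cov g e = true) : dc e.1 ∈ dcL l ∧ R (dc e.1) ⊆ dc g ∧ dc g ⊆ dc e.1 := by
  simp only [cov, Bool.and_eq_true, decide_eq_true_eq] at hc
  obtain ⟨h1, _, h3⟩ := h.1 e he
  have hm : dc e.1 ∈ dcL l := mem_dcL.2 ⟨_, h1, rfl⟩
  refine ⟨hm, ?_, sub_of_land hc.1⟩
  intro x hx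
  have h4 := sub_of_land hc.2 (hR.1 _ hm hx)
  rw [dc_lor, mem_union] at h4
  rcases h4 with h4 | h4
  · exact h4
  · exact absurd hx (disjoint_left.1 h3 h4)

theorem check_sound {l : List ℕ} (hl : ∀ m ∈ l, m < 2 ^ 32)
    {R : Finset (Fin 32) → Finset (Fin 32)} (hR : IsPart (dcL l) R) (c : Cert) :
    ∀ s, Inv l R s → check c s = true → False := by
  induction c with
  | split m x t f iht ihf =>
    intro s hs hc
    simp only [check, Bool.and_eq_true, decide_eq_true_eq] at hc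
    obtain ⟨⟨hx, h1⟩, h2⟩ := hc
    by_cases h : (⟨x, hx⟩ : Fin 32) ∈ R (dc m)
    · exact iht _ (inv_upT hs m ⟨x, hx⟩ h) h1
    · exact ihf _ (inv_upF hs m ⟨x, hx⟩ h) h2
  | two g =>
    intro s hs hc
    simp only [check, List.any_eq_true, Bool.and_eq_true, decide_eq_true_eq] at hc
    obtain ⟨e1, he1, h1, e2, he2, h2, hne⟩ := hc
    have a1 := cov_spec hR hs he1 h1
    have a2 := cov_spec hR hs he2 h2
    have hu := (hR.2 (dc g) ⟨_, a1.1, a1.2.2⟩).unique a1 a2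
    exact hne (dc_inj (hl _ (hs.1 e1 he1).1) (hl _ (hs.1 e2 he2).1) hu)
  | nil g =>
    intro s hs hc
    simp only [check, List.any_eq_true, List.all_eq_true, Bool.and_eq_true, Bool.or_eq_true,
      decide_eq_true_eq] at hc
    obtain ⟨⟨hg, e, he, h1⟩, h2⟩ := hc
    obtain ⟨F, ⟨hF, h3, h4⟩, -⟩ :=
      hR.2 (dc g) ⟨_, mem_dcL.2 ⟨_, (hs.1 e he).1, rfl⟩, sub_of_land h1⟩
    obtain ⟨m, hm, rfl⟩ := mem_dcL.1 hF
    obtain ⟨e', he', rfl⟩ := hs.2 m hm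
    rcases h2 e' he' with h5 | ⟨h5, h6⟩
    · exact h5 (land_of_sub hg h4)
    · exact h5 (land_of_sub h6 ((hs.1 e' he').2.1.trans h3))

theorem no_part {l : List ℕ} (hl : ∀ m ∈ l, m < 2 ^ 32) (c : Cert)
    (hc : check c (l.map (fun m => (m, 0, 0))) = true) (R : Finset (Fin 32) → Finset (Fin 32)) :
    ¬ IsPart (dcL l) R := by
  intro hR
  have h0 : dc 0 = ∅ := by
    ext n
    simp [mem_dc]
  refine check_sound hl hR c _ ⟨?_, ?_⟩ hc
  · intro e he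
    obtain ⟨m, hm, rfl⟩ := List.mem_map.1 he
    simp [hm, h0]
  · intro m hm
    exact ⟨_, List.mem_map.2 ⟨m, hm, rfl⟩, rfl⟩

end Pool.Agent.H401Z.PB
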