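import Mathlib
import Pool.Agent.H401Z.PB.NoPart

set_option autoImplicit false
set_option maxRecDepth 100000

namespace Pool.Agent.H401Z.PB

open Pool.Agent.Helper175.NS

/-- The 74 facets (bit masks on 25 vertices) of the ball. -/
def ballL : List ℕ :=
  [165, 8356, 10276, 67620, 65573, 67617, 18465, 83969, 10400, 2224, 10384, 688, 673, 16929, 8848,
  82433, 8728, 8840, 649, 66057, 82440, 16920, 541200, 8913424, 8388745, 8913025, 8912913,
  2113560, 2105368, 2105480, 10485896, 11010176, 11010560, 2638336, 2637840, 10502152, 10502656,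
  262465, 262466, 266306, 397376, 393281, 135233, 36929, 167937, 4418, 4432, 4370, 1360, 1345,
  33857, 1298, 164865, 16778258, 16778498, 16778497, 16909313, 16942080, 16811024, 1082384,
  9438224, 25166081, 9437441, 9437201, 21004304, 20971538, 20971778, 29360384, 13631744, 13632512,
  5276672, 5275664, 29392896, 12616704]

/-- Stellar exchanges reducing the ball to a tetrahedron. -/
def moves : List (ℕ × ℕ) :=
  [(2097664, 8929280), (1081344, 4195344), (8224, 2180), (524800, 8405008), (132096, 16809985),
  (8704, 152), (66048, 16393), (131136, 266241), (4352, 82), (540672, 10485776), (524288,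
  2097153), (32784, 20972544), (8200, 2097296), (65568, 2053), (1049600, 12582928), (1048576,
  4194305), (8388864, 20971521), (272, 1090), (256, 3), (2113536, 8388632), (2097160, 8388752),
  (262208, 4099), (64, 5120), (262144, 131074), (8208, 2099200), (8192, 2097156), (16400,
  8389128), (24, 8389248), (16777232, 4195330), (4227072, 25166848), (16777218, 4195329), (36,
  2177), (32, 2560), (20971520, 8389633), (10485760, 145), (16778240, 8421377), (16777216,
  8519680), (32768, 8392704), (131072, 8388610), (12582912, 1041), (4194304, 19), (136, 8389121),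
  (1026, 4113), (4096, 1026), (1024, 8388626), (520, 8404993), (512, 8390656), (16384, 8454144),
  (8388736, 2065), (144, 2099201), (128, 2097157), (2097152, 20), (2048, 8388612), (65536, 12),
  (16, 6), (8388608, 10)]

/-- The refutation of partitionability. -/
def cert : Cert :=
  (.split 8356 5 (.nil 8324) (.split 10276 5 (.nil 10244) (.split 67620 5 (.nil 67588) (.split
  65573 5 (.nil 65541) (.split 18465 0 (.nil 18464) (.split 83969 0 (.nil 83968) (.split 2224 7
  (.nil 2096) (.split 10384 7 (.nil 10256) (.split 688 7 (.nil 560) (.split 16929 0 (.nil 16928)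
  (.split 66057 9 (.nil 65545) (.split 82440 9 (.nil 81928) (.split 8913424 19 (.nil 8389136)
  (.split 8388745 7 (.nil 8388617) (.split 8912913 23 (.nil 524305) (.split 2105368 3 (.nil
  2105360) (.split 2105480 3 (.nil 2105472) (.split 2637840 14 (.nil 2621456) (.split 10502656 21
  (.nil 8405504) (.split 262465 6 (.nil 262401) (.split 262466 6 (.nil 262402) (.split 397376 6
  (.nil 397312) (.split 393281 6 (.nil 393217) (.split 36929 0 (.nil 36928) (.split 167937 0 (.nil
  167936) (.split 4432 8 (.nil 4176) (.split 4370 8 (.nil 4114) (.split 1360 8 (.nil 1104) (.split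
  33857 0 (.nil 33856) (.split 16909313 10 (.nil 16908289) (.split 9438224 20 (.nil 8389648)
  (.split 25166081 8 (.nil 25165825) (.split 9437441 23 (.nil 1048833) (.split 9437201 23 (.nil
  1048593) (.split 20971538 24 (.nil 4194322) (.split 20971778 24 (.nil 4194562) (.split 5275664
  15 (.nil 5242896) (.split 12616704 22 (.nil 8422400) (.split 8913424 9 (.split 8912913 0 (.nil
  8912912) (.split 2637840 21 (.split 541200 9 (.nil 540688) (.split 541200 14 (.split 8913424 23
  (.nil 524816) (.split 688 5 (.split 8848 13 (.nil 656) (.split 8848 7 (.split 8728 3 (.nil 8720)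
  (.split 8728 13 (.split 16920 14 (.nil 536) (.split 16920 3 (.split 541200 19 (.nil 16912)
  (.split 10384 11 (.split 8848 9 (.nil 8336) (.split 16929 5 (.split 82433 16 (.nil 16897)
  (.split 82433 0 (.split 82440 3 (.nil 82432) (.split 83969 11 (.split 82433 9 (.nil 81921)
  (.split 65573 2 (.split 67617 11 (.nil 65569) (.split 67617 5 (.split 83969 14 (.nil 67585)
  (.split 67620 2 (.split 67617 0 (.nil 65568) (.split 2224 4 (.split 10400 13 (.nil 2208) (.split
  10400 7 (.split 10276 2 (.nil 10272) (.split 10384 4 (.split 10400 5 (.nil 2176) (.split 8356 2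
  (.split 10400 11 (.nil 8352) (.split 8848 4 (.split 2105480 21 (.split 8840 3 (.nil 8832)
  (.split 8840 9 (.nil 8328) (.two 8320))) (.two 8320)) (.two 128))) (.split 8848 4 (.split
  2105480 21 (.split 8840 3 (.nil 8832) (.split 8840 9 (.nil 8328) (.two 8320))) (.two 8320))
  (.two 8320)))) (.two 10240))) (.split 67617 16 (.split 18465 14 (.nil 2081) (.two 2080)) (.two
  2080)))) (.split 67617 16 (.split 18465 14 (.nil 2081) (.two 2080)) (.two 2080)))) (.two
  67584))) (.split 82433 14 (.split 66057 3 (.nil 66049) (.two 65537)) (.two 65537)))) (.split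
  82433 14 (.split 66057 3 (.nil 66049) (.two 65537)) (.two 65537)))) (.two 81920))) (.split
  541200 4 (.split 10502656 23 (.split 2638336 21 (.nil 540672) (.split 2638336 19 (.nil 2114048)
  (.two 16896))) (.two 16896)) (.two 16896)))) (.split 541200 4 (.split 10502656 23 (.split
  2638336 21 (.nil 540672) (.split 2638336 19 (.nil 2114048) (.two 16896))) (.two 16896)) (.two
  16896)))) (.split 8728 9 (.split 2105368 21 (.nil 8216) (.two 8208)) (.two 8208)))) (.two 528)))
  (.two 528))) (.two 528))) (.two 528))) (.two 524304))) (.two 524304))) (.split 9438224 10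
  (.split 9437201 0 (.nil 9437200) (.split 9437201 20 (.split 5275664 22 (.split 8912913 19 (.nil
  17) (.split 1082384 10 (.nil 1081360) (.split 1082384 15 (.split 9438224 23 (.nil 1049616)
  (.split 1360 6 (.split 1298 1 (.nil 1296) (.split 1298 8 (.split 16778258 24 (.nil 1042) (.split
  16778258 1 (.split 16811024 15 (.nil 16778256) (.split 16811024 24 (.split 1082384 20 (.nil
  33808) (.split 25166081 24 (.split 9437441 20 (.nil 8388865) (.split 262465 18 (.split 1345 10
  (.nil 321) (.split 1345 6 (.split 16778497 24 (.nil 1281) (.split 16778497 10 (.split 25166081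
  23 (.nil 16777473) (.split 16909313 17 (.split 16778497 8 (.nil 16778241) (.split 33857 6
  (.split 164865 17 (.nil 33793) (.split 164865 15 (.split 16909313 24 (.nil 132097) (.split
  393281 18 (.split 135233 12 (.nil 131137) (.split 135233 6 (.split 167937 15 (.nil 135169)
  (.split 397376 18 (.split 135233 0 (.nil 131136) (.split 135233 17 (.split 36929 15 (.nil 4161)
  (.split 4432 4 (.split 4418 1 (.nil 4416) (.split 4418 8 (.split 266306 18 (.nil 4162) (.split
  266306 1 (.split 262466 18 (.split 4418 12 (.nil 322) (.split 1345 0 (.split 1360 4 (.nil 1344)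
  (.split 1360 10 (.split 33857 15 (.split 36929 12 (.nil 64) (.split 1345 8 (.nil 1089) (.two
  65))) (.two 1088)) (.two 320))) (.two 320))) (.split 20971778 22 (.split 16778498 10 (.nil
  16777474) (.split 16778498 24 (.split 16778258 4 (.nil 1026) (.split 1298 4 (.nil 1282) (.split
  16778498 8 (.split 1298 10 (.split 4370 12 (.nil 274) (.split 16778258 10 (.split 20971538 22
  (.nil 16777218) (.two 18)) (.two 18))) (.two 258)) (.two 16778242)))) (.two 258))) (.two 258)))
  (.two 4160))) (.two 4160))) (.two 4160))) (.split 1345 8 (.split 4432 4 (.split 33857 15 (.nil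
  1089) (.split 4418 1 (.nil 4416) (.split 1360 4 (.split 1345 0 (.nil 1344) (.split 4418 12
  (.split 262466 18 (.nil 322) (.split 20971778 22 (.split 16778498 10 (.nil 16777474) (.split
  16778498 24 (.split 16778258 4 (.nil 1026) (.split 1298 4 (.nil 1282) (.split 16778498 8 (.split
  1298 10 (.split 4370 12 (.nil 274) (.split 16778258 10 (.split 20971538 22 (.nil 16777218) (.two
  18)) (.two 18))) (.two 258)) (.two 16778242)))) (.two 258))) (.two 258))) (.two 320))) (.two
  1088)))) (.two 4160)) (.two 65)))) (.two 135168))) (.two 131073))) (.two 131073))) (.two 1025)))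
  (.split 1082384 4 (.split 12616704 23 (.split 5276672 22 (.nil 1081344) (.split 5276672 20 (.nil
  4228096) (.two 33792))) (.two 33792)) (.two 33792)))) (.two 16777217))) (.two 257))) (.two
  257))) (.two 257))) (.split 8388745 3 (.split 8912913 4 (.split 8913025 19 (.nil 8388737)
  (.split 8913025 7 (.nil 524289) (.two 8388609))) (.two 8388609)) (.two 8388609)))) (.two 1040)))
  (.two 1040))) (.two 1040))) (.two 1040))) (.two 1048592)))) (.two 1048592)) (.two 8388624)))
  (.two 8388624)))))))))))))))))))))))))))))))))))))))))

theorem chain_ok : chainB ballL moves [15] = true := by decide +kernel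

theorem cert_ok : check cert (ballL.map (fun m => (m, 0, 0))) = true := by decide +kernel

theorem ball_lt : ∀ m ∈ ballL, m < 2 ^ 32 := by decide +kernel

theorem ball_ne : ∀ m ∈ ballL, m ≠ 0 := by decide +kernel

theorem ball_anti : ∀ a ∈ ballL, ∀ b ∈ ballL, b &&& a = a → a = b := by decide +kernel

theorem ball_homeo : Nonempty (Sp (dcL ballL) ≃ₜ Sp (dcL [15])) :=
  chain_homeo moves ballL [15] chain_ok

theorem ball_no_part (R : Finset (Fin 32) → Finset (Fin 32)) : ¬ IsPart (dcL ballL) R :=
  no_part ball_lt cert cert_ok R

end Pool.Agent.H401Z.PB
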