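import Mathlib
import Pool.Agent.H401Z.PB.NoPart

set_option autoImplicit false

namespace Pool.Agent.H401Z.PB

open Finset Pool.Agent.Helper175.NS

/-- the `i`-th unit vector -/
noncomputable def ev (i : Fin 32) : EuclideanSpace ℝ (Fin 32) := EuclideanSpace.single i 1

theorem ev_apply (i j : Fin 32) : ev i j = if j = i then 1 else 0 := by
  simp [ev]

theorem ev_inj : Function.Injective ev := by
  intro i j h
  have h1 := congrArg (fun x : EuclideanSpace ℝ (Fin 32) => x i) h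
  simp only [ev_apply, if_true] at h1
  by_contra hne
  rw [if_neg hne] at h1
  exact one_ne_zero h1

theorem ev_indep : AffineIndependent ℝ ev := by
  apply LinearIndependent.affineIndependent
  have h := (EuclideanSpace.basisFun (Fin 32) ℝ).toBasis.linearIndependent
  have he : ev = ⇑(EuclideanSpace.basisFun (Fin 32) ℝ).toBasis := by
    funext i
    simp [ev]
  rw [he]
  exact h

/-- the abstract complex generated by `L` -/
def preCx (L : Finset (Finset (Fin 32))) : PreAbstractSimplicialComplex (Fin 32) where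
  faces := {s | s.Nonempty ∧ ∃ F ∈ L, s ⊆ F}
  isRelLowerSet_faces := by
    rintro s ⟨hs, F, hF, hsF⟩
    exact ⟨hs, fun t hts ht => ⟨ht, F, hF, hts.trans hsF⟩⟩

open Classical in
/-- its geometric realization on the unit vectors -/
noncomputable def geo (L : Finset (Finset (Fin 32))) :
    Geometry.SimplicialComplex ℝ (EuclideanSpace ℝ (Fin 32)) :=
  Geometry.SimplicialComplex.ofAffineIndependent ((preCx L).map ev)
    (by
      refine ev_indep.range.mono fun x hx => ?_
      simp only [Set.mem_iUnion, Finset.mem_coe] at hx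
      obtain ⟨_, ⟨_, _, rfl⟩, hx⟩ := hx
      obtain ⟨i, _, rfl⟩ := Finset.mem_image.1 hx
      exact ⟨i, rfl⟩)

open Classical in
theorem mem_geo {L : Finset (Finset (Fin 32))} {t : Finset (EuclideanSpace ℝ (Fin 32))} :
    t ∈ (geo L).faces ↔ ∃ s : Finset (Fin 32), (s.Nonempty ∧ ∃ F ∈ L, s ⊆ F) ∧ s.image ev = t :=
  Iff.rfl

theorem geo_finite (L : Finset (Finset (Fin 32))) : (geo L).faces.Finite := by
  classical
  refine (Set.finite_range (fun s : Finset (Fin 32) => s.image ev)).subset ?_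
  intro t ht
  obtain ⟨s, _, rfl⟩ := mem_geo.1 ht
  exact ⟨s, by congr⟩

open Classical in
theorem mem_hull (s : Finset (Fin 32)) (x : EuclideanSpace ℝ (Fin 32)) :
    x ∈ convexHull ℝ ((s.image ev : Finset _) : Set (EuclideanSpace ℝ (Fin 32))) ↔
      (∀ i, 0 ≤ x i) ∧ (∀ i, i ∉ s → x i = 0) ∧ ∑ i ∈ s, x i = 1 := by
  constructor
  · intro hx
    have hc : Convex ℝ {x : EuclideanSpace ℝ (Fin 32) |
        (∀ i, 0 ≤ x i) ∧ (∀ i, i ∉ s → x i = 0) ∧ ∑ i ∈ s, x i = 1} := by
      rintro a ⟨a1, a2, a3⟩ b ⟨b1, b2, b3⟩ p q hp hq hpq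
      refine ⟨fun i => ?_, fun i hi => ?_, ?_⟩
      · have := a1 i
        have := b1 i
        simp only [PiLp.add_apply, PiLp.smul_apply, smul_eq_mul]
        positivity
      · simp [a2 i hi, b2 i hi]
      · simp only [PiLp.add_apply, PiLp.smul_apply, smul_eq_mul]
        rw [sum_add_distrib, ← mul_sum, ← mul_sum, a3, b3]
        linarith
    refine convexHull_min ?_ hc hx
    intro y hy
    obtain ⟨j, hj, rfl⟩ := Finset.mem_image.1 (Finset.mem_coe.1 hy)
    refine ⟨fun i => ?_, fun i hi => ?_, ?_⟩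
    · rw [ev_apply]
      split_ifs <;> norm_num
    · rw [ev_apply, if_neg]
      rintro rfl
      exact hi hj
    · simp [ev_apply, hj]
  · rintro ⟨h1, h2, h3⟩
    have hx : x = ∑ i ∈ s, x i • ev i := by
      ext j
      simp only [WithLp.ofLp_sum, Finset.sum_apply, WithLp.ofLp_smul, Pi.smul_apply, ev_apply,
        smul_eq_mul, mul_ite, mul_one, mul_zero]
      rw [Finset.sum_ite_eq]
      split_ifs with h
      · rfl
      · exact h2 j h
    rw [hx]
    refine (convex_convexHull ℝ _).sum_mem (fun i _ => h1 i) h3 fun i hi => ?_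
    exact subset_convexHull ℝ _ (Finset.mem_coe.2 (Finset.mem_image_of_mem _ hi))

theorem mem_space (L : Finset (Finset (Fin 32))) (x : EuclideanSpace ℝ (Fin 32)) :
    x ∈ (geo L).space ↔ (fun i => x i) ∈ Sp L := by
  classical
  rw [Geometry.SimplicialComplex.mem_space_iff]
  constructor
  · rintro ⟨t, ht, hx⟩
    obtain ⟨s, ⟨_, F, hF, hsF⟩, rfl⟩ := mem_geo.1 ht
    obtain ⟨h1, h2, h3⟩ := (mem_hull s x).1 (by convert hx)
    refine ⟨h1, F, hF, fun v hv => h2 v (fun h => hv (hsF h)), ?_⟩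
    rw [← h3]
    exact (sum_subset hsF (fun v _ hv => h2 v hv)).symm
  · rintro ⟨h1, F, hF, h2, h3⟩
    have hne : F.Nonempty := by
      rw [nonempty_iff_ne_empty]
      rintro rfl
      simp at h3
    refine ⟨_, mem_geo.2 ⟨F, ⟨hne, F, hF, Subset.refl F⟩, rfl⟩, ?_⟩
    convert (mem_hull F x).2 ⟨h1, h2, h3⟩

theorem geo_homeo (L : Finset (Finset (Fin 32))) : Nonempty ((geo L).space ≃ₜ Sp L) :=
  ⟨Homeomorph.subtype (EuclideanSpace.equiv (Fin 32) ℝ).toHomeomorph (fun x => mem_space L x)⟩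

/-- the corner tetrahedron in `ℝ³` -/
def tet : Set (EuclideanSpace ℝ (Fin 3)) := {y | (∀ i, 0 ≤ y i) ∧ y 0 + y 1 + y 2 ≤ 1}

theorem tet_ball : Nonempty (tet ≃ₜ Metric.closedBall (0 : EuclideanSpace ℝ (Fin 3)) 1) := by
  have hconv : Convex ℝ tet := by
    rintro a ⟨a1, a2⟩ b ⟨b1, b2⟩ p q hp hq hpq
    refine ⟨fun i => ?_, ?_⟩
    · have := a1 i
      have := b1 i
      simp only [PiLp.add_apply, PiLp.smul_apply, smul_eq_mul]
      positivity
    · simp only [PiLp.add_apply, PiLp.smul_apply, smul_eq_mul]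
      nlinarith
  have hcl : IsClosed tet := by
    have h1 : IsClosed {y : EuclideanSpace ℝ (Fin 3) | ∀ i, 0 ≤ y i} := by
      rw [Set.setOf_forall]
      exact isClosed_iInter fun i => isClosed_le continuous_const (by fun_prop)
    have h2 : IsClosed {y : EuclideanSpace ℝ (Fin 3) | y 0 + y 1 + y 2 ≤ 1} :=
      isClosed_le (by fun_prop) continuous_const
    exact h1.inter h2
  have hb : Bornology.IsBounded tet := by
    refine (Metric.isBounded_closedBall (x := (0 : EuclideanSpace ℝ (Fin 3))) (r := 1)).subset ?_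
    rintro y ⟨h1, h2⟩
    rw [mem_closedBall_zero_iff, EuclideanSpace.norm_eq, Fin.sum_univ_three]
    apply Real.sqrt_le_iff.2
    refine ⟨by norm_num, ?_⟩
    have a := h1 0
    have b := h1 1
    have c := h1 2
    simp only [Real.norm_eq_abs, sq_abs]
    nlinarith [mul_nonneg a b, mul_nonneg a c, mul_nonneg b c]
  have hi : (interior tet).Nonempty := by
    have ho : IsOpen {y : EuclideanSpace ℝ (Fin 3) | (∀ i, 0 < y i) ∧ y 0 + y 1 + y 2 < 1} := by
      have h1 : IsOpen {y : EuclideanSpace ℝ (Fin 3) | ∀ i, 0 < y i} := by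
        rw [Set.setOf_forall]
        exact isOpen_iInter_of_finite fun i => isOpen_lt continuous_const (by fun_prop)
      have h2 : IsOpen {y : EuclideanSpace ℝ (Fin 3) | y 0 + y 1 + y 2 < 1} :=
        isOpen_lt (by fun_prop) continuous_const
      exact h1.inter h2
    refine ⟨WithLp.toLp 2 (fun _ => (1 / 4 : ℝ)), interior_maximal ?_ ho ⟨?_, ?_⟩⟩
    · rintro y ⟨h1, h2⟩
      exact ⟨fun i => (h1 i).le, h2.le⟩
    · intro i
      norm_num
    · norm_num
  obtain ⟨h, -, h2, -⟩ :=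
    exists_homeomorph_image_interior_closure_frontier_eq_unitBall hconv hi hb
  rw [hcl.closure_eq] at h2
  exact ⟨(h.image tet).trans (Homeomorph.setCongr h2)⟩

theorem dc_15 : dc 15 = {0, 1, 2, 3} := by decide

theorem mem_sp15 (x : Fin 32 → ℝ) : x ∈ Sp (dcL [15]) ↔
    (∀ v, 0 ≤ x v) ∧ (∀ v, v ≠ 0 → v ≠ 1 → v ≠ 2 → v ≠ 3 → x v = 0) ∧
      x 0 + x 1 + x 2 + x 3 = 1 := by
  have hs : ∑ v ∈ ({0, 1, 2, 3} : Finset (Fin 32)), x v = x 0 + x 1 + x 2 + x 3 := by
    rw [sum_insert (by decide), sum_insert (by decide), sum_insert (by decide), sum_singleton]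
    ring
  constructor
  · rintro ⟨h1, F, hF, h2, h3⟩
    obtain ⟨m, hm, rfl⟩ := mem_dcL.1 hF
    rw [List.mem_singleton] at hm
    subst hm
    rw [dc_15] at h2 h3
    refine ⟨h1, fun v a b c d => h2 v (by simp [a, b, c, d]), hs ▸ h3⟩
  · rintro ⟨h1, h2, h3⟩
    refine ⟨h1, dc 15, mem_dcL.2 ⟨15, List.mem_singleton_self _, rfl⟩, ?_, ?_⟩
    · rw [dc_15]
      intro v hv
      simp only [mem_insert, mem_singleton, not_or] at hv
      exact h2 v hv.1 hv.2.1 hv.2.2.1 hv.2.2.2
    · rw [dc_15, hs, h3]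

noncomputable def toTet (x : Fin 32 → ℝ) : EuclideanSpace ℝ (Fin 3) :=
  WithLp.toLp 2 ![x 0, x 1, x 2]

noncomputable def ofTet (y : EuclideanSpace ℝ (Fin 3)) : Fin 32 → ℝ := fun v =>
  if v = 0 then y 0 else if v = 1 then y 1 else if v = 2 then y 2 else
    if v = 3 then 1 - (y 0 + y 1 + y 2) else 0

theorem sp_tet : Nonempty (Sp (dcL [15]) ≃ₜ tet) := by
  have e0 : ∀ y, ofTet y 0 = y 0 := fun y => rfl
  have e1 : ∀ y, ofTet y 1 = y 1 := fun y => rfl
  have e2 : ∀ y, ofTet y 2 = y 2 := fun y => rfl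
  have e3 : ∀ y, ofTet y 3 = 1 - (y 0 + y 1 + y 2) := fun y => rfl
  have t0 : ∀ x, toTet x 0 = x 0 := fun x => rfl
  have t1 : ∀ x, toTet x 1 = x 1 := fun x => rfl
  have t2 : ∀ x, toTet x 2 = x 2 := fun x => rfl
  refine ⟨{ toFun := fun x => ⟨toTet x.1, ?_⟩
            invFun := fun y => ⟨ofTet y.1, ?_⟩
            left_inv := ?_
            right_inv := ?_
            continuous_toFun := ?_
            continuous_invFun := ?_ }⟩
  · obtain ⟨h1, -, h3⟩ := (mem_sp15 _).1 x.2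
    refine ⟨fun i => ?_, ?_⟩
    · fin_cases i
      · exact h1 0
      · exact h1 1
      · exact h1 2
    · rw [t0, t1, t2]
      linarith [h1 3]
  · obtain ⟨h1, h2⟩ := y.2
    refine (mem_sp15 _).2 ⟨fun v => ?_, fun v a b c d => ?_, ?_⟩
    · unfold ofTet
      split_ifs
      · exact h1 0
      · exact h1 1
      · exact h1 2
      · linarith
      · exact le_rfl
    · unfold ofTet
      rw [if_neg a, if_neg b, if_neg c, if_neg d]
    · rw [e0, e1, e2, e3]
      ring
  · rintro ⟨x, hx⟩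
    obtain ⟨-, h2, h3⟩ := (mem_sp15 _).1 hx
    apply Subtype.ext
    funext v
    show ofTet (toTet x) v = x v
    unfold ofTet
    split_ifs with a b c d
    · rw [a, t0]
    · rw [b, t1]
    · rw [c, t2]
    · rw [d, t0, t1, t2]
      linarith
    · exact (h2 v a b c d).symm
  · rintro ⟨y, hy⟩
    apply Subtype.ext
    ext i
    fin_cases i <;> rfl
  · apply Continuous.subtype_mk
    unfold toTet
    refine (PiLp.continuous_toLp 2 _).comp (continuous_pi fun i => ?_)
    have hc : ∀ w : Fin 32, Continuous fun x : Sp (dcL [15]) => (x : Fin 32 → ℝ) w := fun w =>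
      (continuous_apply w).comp continuous_subtype_val
    fin_cases i
    · exact hc 0
    · exact hc 1
    · exact hc 2
  · apply Continuous.subtype_mk
    apply continuous_pi
    intro v
    unfold ofTet
    split_ifs <;> fun_prop

open Classical in
theorem facet_iff {L : Finset (Finset (Fin 32))} (hne : ∀ F ∈ L, F.Nonempty)
    (hanti : ∀ F ∈ L, ∀ G ∈ L, F ⊆ G → F = G) {t : Finset (EuclideanSpace ℝ (Fin 32))} :
    t ∈ (geo L).facets ↔ ∃ F ∈ L, F.image ev = t := by
  rw [Geometry.SimplicialComplex.mem_facets]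
  constructor
  · rintro ⟨ht, hmax⟩
    obtain ⟨s, ⟨_, F, hF, hsF⟩, rfl⟩ := mem_geo.1 ht
    exact ⟨F, hF, (hmax _ (mem_geo.2 ⟨F, ⟨hne F hF, F, hF, Subset.refl F⟩, rfl⟩)
      (image_subset_image hsF)).symm⟩
  · rintro ⟨F, hF, rfl⟩
    refine ⟨mem_geo.2 ⟨F, ⟨hne F hF, F, hF, Subset.refl F⟩, rfl⟩, ?_⟩
    intro t ht hsub
    obtain ⟨s, ⟨_, G, hG, hsG⟩, rfl⟩ := mem_geo.1 ht
    have h1 : F ⊆ s := (image_subset_image_iff ev_inj).1 hsub
    have h2 := hanti F hF G hG (h1.trans hsG)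
    subst h2
    rw [Subset.antisymm h1 hsG]

theorem part_transfer {L : Finset (Finset (Fin 32))} (hne : ∀ F ∈ L, F.Nonempty)
    (hanti : ∀ F ∈ L, ∀ G ∈ L, F ⊆ G → F = G)
    (R : Finset (EuclideanSpace ℝ (Fin 32)) → Finset (EuclideanSpace ℝ (Fin 32)))
    (h1 : ∀ F ∈ (geo L).facets, R F ⊆ F)
    (h2 : ∀ σ : Finset (EuclideanSpace ℝ (Fin 32)), (σ = ∅ ∨ σ ∈ (geo L).faces) →
      ∃! F, F ∈ (geo L).facets ∧ R F ⊆ σ ∧ σ ⊆ F) :
    ∃ R', IsPart L R' := by
  classical
  refine ⟨fun F => F.filter (fun i => ev i ∈ R (F.image ev)), fun F _ => filter_subset _ _, ?_⟩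
  rintro G ⟨F0, hF0, hG⟩
  have hσ : G.image ev = ∅ ∨ G.image ev ∈ (geo L).faces := by
    rcases G.eq_empty_or_nonempty with rfl | hGne
    · left
      rfl
    · right
      exact mem_geo.2 ⟨G, ⟨hGne, F0, hF0, hG⟩, by congr⟩
  have key : ∀ F ∈ L, (F.filter (fun i => ev i ∈ R (F.image ev)) ⊆ G ↔
      R (F.image ev) ⊆ G.image ev) := by
    intro F hF
    have hf : F.image ev ∈ (geo L).facets := (facet_iff hne hanti).2 ⟨F, hF, by congr⟩
    constructor
    · intro h y hy
      obtain ⟨i, hi, rfl⟩ := mem_image.1 (h1 _ hf hy)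
      exact mem_image_of_mem _ (h (mem_filter.2 ⟨hi, hy⟩))
    · intro h i hi
      obtain ⟨j, hj, hji⟩ := mem_image.1 (h (mem_filter.1 hi).2)
      exact ev_inj hji ▸ hj
  obtain ⟨t, ⟨ht, a, b⟩, hu⟩ := h2 _ hσ
  obtain ⟨F, hF, hFt⟩ := (facet_iff hne hanti).1 ht
  have hFt' : F.image ev = t := by convert hFt
  subst hFt'
  refine ⟨F, ⟨hF, (key F hF).2 a, (image_subset_image_iff ev_inj).1 b⟩, ?_⟩
  rintro F' ⟨hF', a', b'⟩
  have := hu (F'.image ev) ⟨(facet_iff hne hanti).2 ⟨F', hF', by congr⟩, (key F' hF').1 a',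
    image_subset_image b'⟩
  exact image_injective ev_inj this

end Pool.Agent.H401Z.PB
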